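import Mathlib
import Pool.Agent.W2helper97.TT.Decomp
import Pool.Agent.W2helper97.TT.Forests
import Pool.Agent.W2helper97.TT.Lower

set_option autoImplicit false

/-!
# The maximum tree thickness of a planar triangle-free graph

`TreeDecomp G k`: there are `k` pairwise edge-disjoint subgraphs of `G`, each of them a tree, whose
union is `G`. `treeThickness G` is the least such `k`.

For every `n ≥ 1` the maximum of the tree thickness over the connected planar triangle-free graphs
on `n` vertices is `⌊n / 4⌋ + 1`. The upper bound holds for every connected triangle-free graph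
whose edges are covered by two forests.
-/

namespace Pool.Agent.Results.MP_e7aab5_co.TreeThickness

open Pool.Agent.W2helper97.TT
open Pool.Agent.H239R2.Planar (IsPlanar HasStraightLineDrawing)
open Pool.Agent.TH455 (PlanarAny)

/-- (1) For every `n ≥ 1`, the maximum of the tree thickness over the connected triangle-free graphs
on `n` vertices with a straight-line drawing in the plane is `⌊n / 4⌋ + 1`.
(2) More generally a finite connected triangle-free graph `G` whose edges are covered by two forests,
or which is planar (by a rotation system satisfying Euler's formula, by a straight-line drawing, or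
because neither `K₅` nor `K₃,₃` is a minor), decomposes into `treeThickness G` trees, and
`treeThickness G ≤ ⌊n / 4⌋ + 1`. -/
theorem result :
    (∀ n : ℕ, 1 ≤ n → IsGreatest {k : ℕ | ∃ G : SimpleGraph (Fin n), G.Connected ∧
      HasStraightLineDrawing G ∧ G.CliqueFree 3 ∧ treeThickness G = k} (n / 4 + 1)) ∧
    ∀ (V : Type) [Finite V] (G : SimpleGraph V), G.Connected → G.CliqueFree 3 →
      TwoForests G ∨ PlanarAny G →
      TreeDecomp G (treeThickness G) ∧ treeThickness G ≤ Nat.card V / 4 + 1 := by
  have up : ∀ (V : Type) [Finite V] (G : SimpleGraph V), G.Connected → G.CliqueFree 3 →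
      TwoForests G ∨ PlanarAny G →
      TreeDecomp G (treeThickness G) ∧ treeThickness G ≤ Nat.card V / 4 + 1 := by
    intro V _ G h1 h3 h2
    have h4 : TwoForests G := h2.elim id fun h => twoForests_of_planar h h3
    refine ⟨?_, treeThickness_le h1 h3 h4⟩
    obtain ⟨F1, F2, hF1, hF2, hle⟩ := h4
    obtain ⟨T, F, hg⟩ := exists_good h1 hF1 hF2 hle
    exact Nat.sInf_mem (s := {k | TreeDecomp G k}) ⟨_, treeDecomp_of_good hg⟩
  refine ⟨fun n hn => ⟨⟨Str n, str_connected n hn, str_drawing n, str_free n, ?_⟩, ?_⟩, up⟩
  · obtain ⟨h1, h2⟩ := up _ (Str n) (str_connected n hn) (str_free n)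
      (Or.inr (Or.inr (Or.inl (str_drawing n))))
    rw [Nat.card_eq_fintype_card, Fintype.card_fin] at h2
    exact le_antisymm h2 (str_lower hn h1)
  · rintro k ⟨G, h1, h2, h3, rfl⟩
    have h4 := (up _ G h1 h3 (Or.inr (Or.inr (Or.inl h2)))).2
    rwa [Nat.card_eq_fintype_card, Fintype.card_fin] at h4

end Pool.Agent.Results.MP_e7aab5_co.TreeThickness
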